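import Mathlib
import Pool.Agent.helper12.KZ.Spec
import Pool.Agent.helper70.DI.A11

/-! KAN: A9 and A11 of DI if only `Q` is centralised modulo `G`. -/

set_option autoImplicit false

namespace Pool.Agent.KZ

open Pool.Agent.helper58.DC Pool.Agent.DI Pool.Agent.TY

theorem KAN_nz_le {Γ : Type} [Group Γ] (G Q : Subgroup Γ)
    (hc : ∀ x : Γ, ∀ q ∈ Q, x * q * x⁻¹ * q⁻¹ ∈ G)
    (hQG : Q ⊓ G = ⊥) : nz Q ≤ cz Q := by
  intro x hx
  rw [A11_mem_cz]
  intro q hq
  have h1 : x * q * x⁻¹ ∈ Q := ((A11_mem_nz Q x).1 hx q).1 hq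
  have h2 : x * q * x⁻¹ * q⁻¹ ∈ Q ⊓ G := ⟨Q.mul_mem h1 (Q.inv_mem hq), hc x q hq⟩
  rw [hQG, Subgroup.mem_bot] at h2
  have h3 : x * q = q * x := mul_inv_eq_iff_eq_mul.1 (mul_inv_eq_one.1 h2)
  exact h3.symm

theorem KAN : KAN_stmt := by
  classical
  intro Γ _ _ p _ G Q M g hG hc hQ hQG
  have hnc : nz Q ≤ cz Q := KAN_nz_le G Q hc hQG
  have hQc : Q ≤ cz Q := le_trans Subgroup.le_normalizer hnc
  refine ⟨le_antisymm hnc (A11_cz_le Q), hQc, ?_⟩
  unfold cSum
  have hsup : ∀ C, PCh p (cz Q ⊓ (Q ⊔ G)) Q C → ∀ P ∈ C, Q ⊔ (P ⊓ G) = P := by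
    intro C hC P hP
    exact A11_sup G Q P hG (hC.bot P hP) ((hC.le P hP).trans inf_le_right)
  have hinf : ∀ D, PCh p (G ⊓ cz Q) ⊥ D → ∀ R ∈ D, (Q ⊔ R) ⊓ G = R := by
    intro D hD R hR
    exact A11_inf G Q R hQG ((hD.le R hR).trans inf_le_right) ((hD.le R hR).trans inf_le_left)
  have hmap : ∀ C, PCh p (cz Q ⊓ (Q ⊔ G)) Q C → PCh p (G ⊓ cz Q) ⊥ (C.image (· ⊓ G)) := by
    intro C hC
    refine ⟨?_, ?_, fun _ _ => bot_le, ?_, ?_⟩
    · intro A hA B hB _
      rw [Finset.mem_coe, Finset.mem_image] at hA hB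
      obtain ⟨A, hA, rfl⟩ := hA
      obtain ⟨B, hB, rfl⟩ := hB
      rcases hC.chain.total hA hB with h | h
      · exact Or.inl (inf_le_inf_right G h)
      · exact Or.inr (inf_le_inf_right G h)
    · exact Finset.mem_image.2 ⟨Q, hC.mem, hQG⟩
    · intro A hA
      obtain ⟨A', hA', rfl⟩ := Finset.mem_image.1 hA
      exact le_inf inf_le_right (inf_le_left.trans ((hC.le A' hA').trans inf_le_left))
    · intro A hA
      obtain ⟨A', hA', rfl⟩ := Finset.mem_image.1 hA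
      exact (hC.pg A' hA').to_le inf_le_left
  have hmap' : ∀ D, PCh p (G ⊓ cz Q) ⊥ D → PCh p (cz Q ⊓ (Q ⊔ G)) Q (D.image (Q ⊔ ·)) := by
    intro D hD
    refine ⟨?_, ?_, ?_, ?_, ?_⟩
    · intro A hA B hB _
      rw [Finset.mem_coe, Finset.mem_image] at hA hB
      obtain ⟨A, hA, rfl⟩ := hA
      obtain ⟨B, hB, rfl⟩ := hB
      rcases hD.chain.total hA hB with h | h
      · exact Or.inl (sup_le_sup_left h Q)
      · exact Or.inr (sup_le_sup_left h Q)
    · exact Finset.mem_image.2 ⟨⊥, hD.mem, sup_bot_eq Q⟩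
    · intro A hA
      obtain ⟨A, hA, rfl⟩ := Finset.mem_image.1 hA
      exact le_sup_left
    · intro A hA
      obtain ⟨A', hA', rfl⟩ := Finset.mem_image.1 hA
      have h1 := hD.le A' hA'
      exact le_inf (sup_le hQc (h1.trans inf_le_right)) (sup_le_sup_left (h1.trans inf_le_left) Q)
    · intro A hA
      obtain ⟨A', hA', rfl⟩ := Finset.mem_image.1 hA
      exact hQ.to_sup_of_normal_left' (hD.pg A' hA')
        (((hD.le A' hA').trans inf_le_right).trans (A11_cz_le Q))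
  refine finsum_mem_eq_of_bijOn (fun C => C.image (· ⊓ G)) ?_ ?_
  · refine Set.InvOn.bijOn (f' := fun D => D.image (Q ⊔ ·)) ⟨?_, ?_⟩ ?_ ?_
    · intro C hC
      simp only
      rw [Finset.image_image]
      calc C.image ((Q ⊔ ·) ∘ (· ⊓ G)) = C.image id :=
            Finset.image_congr (fun P hP => hsup C hC P hP)
        _ = C := Finset.image_id
    · intro D hD
      simp only
      rw [Finset.image_image]
      calc D.image ((· ⊓ G) ∘ (Q ⊔ ·)) = D.image id :=
            Finset.image_congr (fun R hR => hinf D hD R hR)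
        _ = D := Finset.image_id
    · intro C hC
      exact hmap C hC
    · intro D hD
      exact hmap' D hD
  · intro C hC
    have hC' : PCh p (cz Q ⊓ (Q ⊔ G)) Q C := hC
    have hcard : (C.image (· ⊓ G)).card = C.card := by
      apply Finset.card_image_of_injOn
      intro A hA B hB hAB
      simp only at hAB
      rw [← hsup C hC' A hA, ← hsup C hC' B hB, hAB]
    have hnrm : M ⊓ nrm C = (M ⊓ cz Q) ⊓ nrm (C.image (· ⊓ G)) := by
      ext x
      simp only [Subgroup.mem_inf, A11_mem_nrm, Finset.mem_image]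
      constructor
      · rintro ⟨hM, hx⟩
        refine ⟨⟨hM, hnc (hx Q hC'.mem)⟩, ?_⟩
        rintro _ ⟨P, hP, rfl⟩
        exact A11_nz_inf G P hG x (hx P hP)
      · rintro ⟨⟨hM, hxc⟩, hx⟩
        refine ⟨hM, fun P hP => ?_⟩
        have h1 := A11_nz_sup Q (P ⊓ G)
          (inf_le_left.trans ((hC'.le P hP).trans inf_le_left)) x (A11_cz_le Q hxc)
          (hx _ ⟨P, hP, rfl⟩)
        rwa [hsup C hC' P hP] at h1
    rw [hcard, hnrm]

end Pool.Agent.KZ
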