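import Mathlib
import Pool.Agent.helper12.KZ.Spec
import Pool.Agent.helper22.DI.D2
import Pool.Agent.helper51.DI.D3

/-! KCF: the function `gst` for an embedded extension. -/

set_option autoImplicit false

namespace Pool.Agent.KZ

open Pool.Agent.helper58.DC Pool.Agent.DI Pool.Agent.TY

theorem KCF_key (hB2 : B2_stmt) (hB13 : B13_stmt) (hB14 : B14_stmt) (hSN : SN_stmt)
    (K E A' A Γ : Type) [Group K] [Group E] [Group A'] [Group A] [Group Γ] [Finite K] [Finite E]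
    [Finite Γ] (Y : Extension K E A') (G' M' : Subgroup Γ) (q : ℕ) (ε : Emb Y G' M' q)
    (π : Γ →* A) (ρ : A' →* A) (hle : G' ≤ π.ker) (hπ : ∀ m : M', ρ (Y.proj (ε.π m)) = π m)
    (C : Finset (Subgroup K)) (hC : IsChain (· ≤ ·) (C : Set (Subgroup K))) (hCne : C.Nonempty)
    (ψ : K → ℂ) (hψ : ψ ∈ IrrOn (nrm C)) :
    (stF (M' ⊓ nrm (cmap ε.i C)) (ext0 ε.i ψ)).map π = ((Y.stab C ψ).map Y.proj).map ρ ∧
    rr G' ((M' ⊓ nrm (cmap ε.i C)) ⊓ π.ker) (ext0 ε.i ψ) =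
      q * Nat.card ((Y.stab C ψ).map Y.proj ⊓ ρ.ker : Subgroup A') := by
  have hinj := ε.i_inj
  obtain ⟨-, h14b, h14c⟩ := hB14 K Γ ε.i hinj C
  have hfirst : (M' ⊓ nrm (cmap ε.i C)) ⊓ G' = (nrm C).map ε.i := by
    rw [h14b hCne, ε.range]
    rw [inf_assoc, inf_comm (nrm (cmap ε.i C)) G', ← inf_assoc]
  obtain ⟨-, -, -, h13d, -, h13f⟩ := hB13 K Γ 0 ε.i hinj (nrm C)
  -- membership
  have hmem : ∀ m : M', ((m : Γ) ∈ stF (M' ⊓ nrm (cmap ε.i C)) (ext0 ε.i ψ) ↔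
      ε.π m ∈ Y.stab C ψ) := by
    intro m
    have hact : ∀ k, ε.i (Y.act (ε.π m) k) = m * ε.i k * (m : Γ)⁻¹ := ε.act m
    have e1 := h14c (Y.act (ε.π m)) m hact hC
    have e2 := h13f ψ (Y.act (ε.π m)) m hact
    constructor
    · rintro ⟨h1, h2⟩
      refine ⟨e1.1 h1.2, ?_⟩
      rw [e2] at h2
      exact h13d _ _ h2
    · rintro ⟨h1, h2⟩
      refine ⟨⟨m.2, e1.2 h1⟩, ?_⟩
      rw [e2, h2]
  constructor
  · ext a
    constructor
    · rintro ⟨m, hm, rfl⟩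
      have hmM : m ∈ M' := hm.1.1
      have h1 := (hmem ⟨m, hmM⟩).1 hm
      refine ⟨Y.proj (ε.π ⟨m, hmM⟩), ⟨_, h1, rfl⟩, ?_⟩
      exact hπ ⟨m, hmM⟩
    · rintro ⟨_, ⟨e, he, rfl⟩, rfl⟩
      obtain ⟨m, rfl⟩ := ε.π_surj e
      refine ⟨m, (hmem m).2 he, ?_⟩
      exact (hπ m).symm
  -- the subgroup S
  set S : Subgroup E := Y.stab C ψ ⊓ (ρ.comp Y.proj).ker with hS
  have hleM : stF ((M' ⊓ nrm (cmap ε.i C)) ⊓ π.ker) (ext0 ε.i ψ) ≤ M' := fun x hx => hx.1.1.1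
  have hT : (stF ((M' ⊓ nrm (cmap ε.i C)) ⊓ π.ker) (ext0 ε.i ψ)).subgroupOf M' =
      S.comap ε.π := by
    ext m
    rw [Subgroup.mem_subgroupOf, Subgroup.mem_comap]
    constructor
    · rintro ⟨⟨h1, h2⟩, h3⟩
      refine ⟨(hmem m).1 ⟨h1, h3⟩, ?_⟩
      change ρ (Y.proj (ε.π m)) = 1
      rw [hπ m]
      exact h2
    · rintro ⟨h1, h2⟩
      obtain ⟨h3, h4⟩ := (hmem m).2 h1
      refine ⟨⟨h3, ?_⟩, h4⟩
      change ρ (Y.proj (ε.π m)) = 1 at h2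
      rw [hπ m] at h2
      exact h2
  have hc1 : Nat.card (stF ((M' ⊓ nrm (cmap ε.i C)) ⊓ π.ker) (ext0 ε.i ψ)) =
      q * Nat.card S := by
    rw [← Nat.card_congr (Subgroup.subgroupOfEquivOfLe hleM).toEquiv, hT, D2_card ε.π]
    rw [Subgroup.map_comap_eq_self_of_surjective ε.π_surj]
    have : ε.π.ker ⊓ S.comap ε.π = ε.π.ker := by
      apply inf_eq_left.2
      intro x hx
      rw [Subgroup.mem_comap, MonoidHom.mem_ker.1 hx]
      exact Subgroup.one_mem _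
    rw [this, ε.card]
  -- inner automorphisms
  have hinn : ∀ g : K, Y.act (Y.inc g) = MulAut.conj g := by
    intro g
    ext k
    apply Y.inc_injective
    rw [Y.act_spec]
    simp
  have hker : Y.proj.ker ⊓ S = (nrm C).map Y.inc := by
    ext e
    constructor
    · rintro ⟨h1, ⟨h2, h3⟩, -⟩
      obtain ⟨g, rfl⟩ := (Y.exact e).1 h1
      rw [hinn] at h2
      exact ⟨g, (hSN K C hC g).1 h2, rfl⟩
    · rintro ⟨g, hg, rfl⟩
      have hk : Y.proj (Y.inc g) = 1 := (Y.exact _).2 ⟨g, rfl⟩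
      refine ⟨hk, ⟨?_, ?_⟩, ?_⟩
      · rw [hinn]
        exact (hSN K C hC g).2 hg
      · rw [hinn]
        funext x
        obtain ⟨-, hh⟩ := hB2 K (nrm C)
        have := (hh ψ hψ).2.1 x g⁻¹ ((nrm C).inv_mem hg)
        rw [inv_inv] at this
        rw [← this]
        rfl
      · change ρ (Y.proj (Y.inc g)) = 1
        rw [hk, map_one]
  have hmapS : S.map Y.proj = (Y.stab C ψ).map Y.proj ⊓ ρ.ker := by
    ext a
    constructor
    · rintro ⟨e, ⟨h1, h2⟩, rfl⟩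
      exact ⟨⟨e, h1, rfl⟩, h2⟩
    · rintro ⟨⟨e, h1, rfl⟩, h2⟩
      exact ⟨e, ⟨h1, h2⟩, rfl⟩
  have hc2 : Nat.card S = Nat.card (nrm C) *
      Nat.card ((Y.stab C ψ).map Y.proj ⊓ ρ.ker : Subgroup A') := by
    rw [D2_card Y.proj, hker, hmapS]
    congr 1
    exact (Nat.card_congr (Subgroup.equivMapOfInjective (nrm C) Y.inc Y.inc_injective).toEquiv).symm
  have hc3 : Nat.card ((nrm C).map ε.i) = Nat.card (nrm C) :=
    (Nat.card_congr (Subgroup.equivMapOfInjective (nrm C) ε.i ε.i_inj).toEquiv).symm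
  have hsec : ((M' ⊓ nrm (cmap ε.i C)) ⊓ π.ker) ⊓ G' = (nrm C).map ε.i := by
    rw [← hfirst, inf_assoc, inf_eq_right.2 hle]
  unfold rr
  rw [hsec, hc1, hc2, hc3]
  have hpos : 0 < Nat.card (nrm C) := Nat.card_pos
  rw [show q * (Nat.card (nrm C) * Nat.card ((Y.stab C ψ).map Y.proj ⊓ ρ.ker : Subgroup A')) =
    (q * Nat.card ((Y.stab C ψ).map Y.proj ⊓ ρ.ker : Subgroup A')) * Nat.card (nrm C) by ring]
  exact Nat.mul_div_cancel _ hpos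

theorem KCF (hKBW : KBW_stmt) (hB2 : B2_stmt) (hB13 : B13_stmt) (hB14 : B14_stmt)
    (hD2 : D2_stmt) (hSN : SN_stmt) : KCF_stmt := by
  classical
  intro K E A' A Γ _ _ _ _ _ _ _ _ Y G' M' G₀ q ε p l _ _ M hA π ρ hFr hG₀ hπ τ d C hC hne
  obtain ⟨h1, -⟩ := hD2 K E A' Γ Y G' M' q ε C hC hne
  have hkey := KCF_key hB2 hB13 hB14 hSN K E A' A Γ Y G' M' q ε π ρ hFr.le hπ C hC hne
  have hfA : Finite A' := Finite.of_surjective Y.proj Y.proj_surjective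
  rw [hKBW Γ A p l M hA π G' G₀ (M' ⊓ nrm (cmap ε.i C)) hFr hG₀ τ d, h1]
  set N : Subgroup Γ := M' ⊓ nrm (cmap ε.i C) with hN
  have hcard : Nat.card ((nrm C).map ε.i : Subgroup Γ) = Nat.card (nrm C) :=
    Nat.card_congr ((nrm C).equivMapOfInjective ε.i ε.i_inj).symm.toEquiv
  rw [hcard]
  congr 2
  obtain ⟨-, b2, b3, b4, b5, -⟩ := hB13 K Γ p ε.i ε.i_inj (nrm C)
  set u : (K → ℂ) → Subgroup A' := fun ψ => (Y.stab C ψ).map Y.proj with hu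
  set S2 : Set (K → ℂ) := {ψ | ψ ∈ IrrOn (nrm C) ∧
    Defect p (nrm C) ψ (d - padicValNat p (q * Nat.card (u ψ ⊓ ρ.ker : Subgroup A'))) ∧
    Cov M G₀ τ (ext0 ε.i ψ) ∧ (u ψ).map ρ = ⊤} with hS2
  have hS1 : {ψ : Γ → ℂ | ψ ∈ IrrOn ((nrm C).map ε.i) ∧ Cov M G₀ τ ψ ∧ (stF N ψ).map π = ⊤ ∧
      Defect p ((nrm C).map ε.i) ψ (d - padicValNat p (rr G' (N ⊓ π.ker) ψ))} =
      ext0 ε.i '' S2 := by
    ext φ
    constructor
    · rintro ⟨g1, g2, g3, g4⟩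
      obtain ⟨ψ, rfl⟩ := b3 φ g1
      have g5 : ψ ∈ IrrOn (nrm C) := (b2 ψ).mpr g1
      rw [(hkey ψ g5).2, ← b5] at g4
      rw [(hkey ψ g5).1] at g3
      exact ⟨ψ, ⟨g5, g4, g2, g3⟩, rfl⟩
    · rintro ⟨ψ, ⟨g1, g2, g3, g4⟩, rfl⟩
      refine ⟨(b2 ψ).mp g1, g3, ?_, ?_⟩
      · rw [(hkey ψ g1).1]
        exact g4
      · rw [(hkey ψ g1).2, ← b5]
        exact g2
  rw [hS1, finsum_mem_image fun a _ b _ h => b4 a b h]
  have hfin : S2.Finite := (hB2 K (nrm C)).1.subset fun ψ h => h.1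
  have e1 : ∑ᶠ ψ ∈ S2, (rr G' (N ⊓ π.ker) (ext0 ε.i ψ) : ℤ) ^ 2 =
      ∑ ψ ∈ hfin.toFinset, ((q * Nat.card (u ψ ⊓ ρ.ker : Subgroup A') : ℕ) : ℤ) ^ 2 := by
    rw [finsum_mem_eq_finite_toFinset_sum _ hfin]
    refine Finset.sum_congr rfl fun ψ hψ => ?_
    rw [(hkey ψ ((hfin.mem_toFinset.mp hψ).1)).2]
  rw [e1]
  have hfinU : {U : Subgroup A' | U.map ρ = ⊤}.Finite := Set.toFinite _
  rw [finsum_mem_eq_finite_toFinset_sum _ hfinU,
    ← Finset.sum_fiberwise_of_maps_to (s := hfin.toFinset) (t := hfinU.toFinset) (g := u)]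
  · refine Finset.sum_congr rfl fun U hU => ?_
    have hU' : U.map ρ = ⊤ := hfinU.mem_toFinset.mp hU
    rw [D3_card (hfin.toFinset.filter fun ψ => u ψ = U)]
    · rw [Finset.sum_congr rfl
        (g := fun _ => ((q * Nat.card (U ⊓ ρ.ker : Subgroup A') : ℕ) : ℤ) ^ 2)]
      · rw [Finset.sum_const, nsmul_eq_mul, mul_comm]
      · intro ψ hψ
        rw [(Finset.mem_filter.mp hψ).2]
    · intro ψ
      rw [Finset.mem_filter, Set.Finite.mem_toFinset]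
      constructor
      · rintro ⟨⟨g1, g2, g3, -⟩, g4⟩
        rw [g4] at g2
        exact ⟨g1, g2, g3, g4⟩
      · rintro ⟨g1, g2, g3, g4⟩
        have g5 : u ψ = U := g4
        refine ⟨⟨g1, ?_, g3, ?_⟩, g5⟩
        · rw [g5]
          exact g2
        · rw [g5]
          exact hU'
  · intro ψ hψ
    exact hfinU.mem_toFinset.mpr (hfin.mem_toFinset.mp hψ).2.2.2

end Pool.Agent.KZ
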