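import Mathlib
import Pool.Agent.helper12.KZ.Spec
import Pool.Agent.helper41.TY.YCI

/-! KCI: the correction terms are invariant. -/

set_option autoImplicit false

namespace Pool.Agent.KZ

open Pool.Agent.helper58.DC Pool.Agent.DI Pool.Agent.TY

section

variable {E A : Type} [Group E] [Group A]

theorem KCI_top (π : E →* A) (N : Subgroup E) (u : E)
    (h : N.map π = ⊤) : (N.map (MulAut.conj u).toMonoidHom).map π = ⊤ := by
  rw [eq_top_iff]
  intro a _
  have h1 : (π u)⁻¹ * a * π u ∈ N.map π := by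
    rw [h]
    exact Subgroup.mem_top _
  obtain ⟨n, hn, hn'⟩ := h1
  refine ⟨u * n * u⁻¹, ⟨n, hn, ?_⟩, ?_⟩
  · exact MulAut.conj_apply u n
  · rw [map_mul, map_mul, hn', map_inv]
    group

theorem KCI_top_iff (π : E →* A) (N : Subgroup E) (u : E) :
    (N.map (MulAut.conj u).toMonoidHom).map π = ⊤ ↔ N.map π = ⊤ := by
  constructor
  · intro h
    have h1 := KCI_top π _ u⁻¹ h
    have hinv : (MulAut.conj u)⁻¹ = MulAut.conj u⁻¹ := (map_inv MulAut.conj u).symm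
    rw [← hinv, YCI_back] at h1
    exact h1
  · exact KCI_top π N u

theorem KCI_inf (π : E →* A) (N : Subgroup E) (u : E) :
    (N.map (MulAut.conj u).toMonoidHom) ⊓ π.ker = (N ⊓ π.ker).map (MulAut.conj u).toMonoidHom := by
  rw [YCI_inf, YCI_normal u π.ker inferInstance]

theorem KCI_funMap_mul (α β : MulAut E) (φ : E → ℂ) :
    funMap (α * β) φ = funMap α (funMap β φ) := by
  funext g
  simp [funMap, mul_inv_rev]

theorem KCI_inv (N : Subgroup E) (φ : E → ℂ) (u : E)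
    (h : ∀ n ∈ N, funMap (MulAut.conj n) φ = φ) :
    ∀ n ∈ N.map (MulAut.conj u).toMonoidHom,
      funMap (MulAut.conj n) (funMap (MulAut.conj u) φ) = funMap (MulAut.conj u) φ := by
  rintro _ ⟨n, hn, rfl⟩
  have h1 : MulAut.conj ((MulAut.conj u).toMonoidHom n) * MulAut.conj u =
      MulAut.conj u * MulAut.conj n := by
    have h2 : (MulAut.conj u).toMonoidHom n = u * n * u⁻¹ := MulAut.conj_apply u n
    rw [h2, ← map_mul, ← map_mul]
    congr 1
    group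
  rw [← KCI_funMap_mul, h1, KCI_funMap_mul, h n hn]

variable [Finite E]

/-- The set counted in `gst`. -/
def KCI_S (p : ℕ) (M : Ideal (integralClosure ℤ ℂ)) (π : E →* A) (G₀ : Subgroup E) (τ : E → ℂ)
    (d : ℤ) (N : Subgroup E) : Set (E → ℂ) :=
  {φ | φ ∈ IrrOn (N ⊓ π.ker) ∧ Defect p (N ⊓ π.ker) φ d ∧ Cov M G₀ τ φ ∧
    ∀ n ∈ N, funMap (MulAut.conj n) φ = φ}

theorem KCI_S_map (hIF : IF_stmt) (p : ℕ) (M : Ideal (integralClosure ℤ ℂ)) (π : E →* A)
    (G₀ : Subgroup E) (τ : E → ℂ) (d : ℤ) (N : Subgroup E) (u : E) (φ : E → ℂ)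
    (h : φ ∈ KCI_S p M π G₀ τ d N) :
    funMap (MulAut.conj u) φ ∈ KCI_S p M π G₀ τ d (N.map (MulAut.conj u).toMonoidHom) := by
  obtain ⟨h1, h2, h3, h4⟩ := h
  refine ⟨?_, ?_, YCI_cov M G₀ τ φ u h3, KCI_inv N φ u h4⟩
  · rw [KCI_inf]
    exact ((hIF E _).2 φ h1).2.2 _
  · rw [KCI_inf]
    exact YCI_def p _ _ φ d h2

theorem KCI_gst (hIF : IF_stmt) (p : ℕ) (M : Ideal (integralClosure ℤ ℂ)) (π : E →* A)
    (G₀ : Subgroup E) (τ : E → ℂ) (d : ℤ) (N : Subgroup E) (u : E) :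
    gst p M π G₀ τ d (N.map (MulAut.conj u).toMonoidHom) = gst p M π G₀ τ d N := by
  have hinv : (MulAut.conj u)⁻¹ = MulAut.conj u⁻¹ := (map_inv MulAut.conj u).symm
  have hc : Nat.card {φ : E → ℂ // φ ∈ KCI_S p M π G₀ τ d (N.map (MulAut.conj u).toMonoidHom)} =
      Nat.card {φ : E → ℂ // φ ∈ KCI_S p M π G₀ τ d N} := by
    refine Nat.card_congr
      ⟨fun φ => ⟨funMap (MulAut.conj u)⁻¹ φ.1, ?_⟩, fun φ => ⟨funMap (MulAut.conj u) φ.1, ?_⟩,
        ?_, ?_⟩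
    · have h := KCI_S_map hIF p M π G₀ τ d _ u⁻¹ φ.1 φ.2
      rw [← hinv, YCI_back] at h
      exact h
    · exact KCI_S_map hIF p M π G₀ τ d N u φ.1 φ.2
    · intro φ
      apply Subtype.ext
      have h := YCI_funfun (MulAut.conj u)⁻¹ φ.1
      rw [inv_inv] at h
      exact h
    · intro φ
      apply Subtype.ext
      exact YCI_funfun (MulAut.conj u) φ.1
  unfold gst
  by_cases h : N.map π = ⊤
  · rw [if_pos h, if_pos ((KCI_top_iff π N u).2 h), YCI_card]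
    congr 2
  · rw [if_neg h, if_neg (fun h' => h ((KCI_top_iff π N u).1 h'))]

end

theorem KCI (hNM : Pool.Agent.helper58.DC.NM_stmt) (hIF : Pool.Agent.helper58.DC.IF_stmt) :
    KCI_stmt := by
  intro p _ M E A _ _ _ π G' G₀ hG hG₀ τ d u Q
  rw [YCI_cz]
  have h1 : G' ⊓ (cz Q).map (MulAut.conj u).toMonoidHom =
      (G' ⊓ cz Q).map (MulAut.conj u).toMonoidHom := by
    rw [YCI_inf, YCI_normal u G' hG]
  have h2 : (⊥ : Subgroup E) = (⊥ : Subgroup E).map (MulAut.conj u).toMonoidHom :=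
    (Subgroup.map_bot _).symm
  rw [h1]
  have h3 := YCI_cSum hNM p (MulAut.conj u) (G' ⊓ cz Q) ⊥ (cz Q) (gst p M π G₀ τ d)
    (fun N => KCI_gst hIF p M π G₀ τ d N u)
  rw [← h2] at h3
  exact h3

end Pool.Agent.KZ
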