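import Mathlib
import Pool.Agent.helper12.KZ.Spec

/-! KST: the step. -/

set_option autoImplicit false

namespace Pool.Agent.KZ

open Pool.Agent.helper58.DC Pool.Agent.DI Pool.Agent.TY

theorem KST_nontrivial {G : Type} [Group G] [Finite G] (p : ℕ)
    (M : Ideal (integralClosure ℤ ℂ)) (χ : G → ℂ) (h : PosDefect p M χ) : Nontrivial G := by
  obtain ⟨χ', _, _, d, hd, n, _, hd'⟩ := h
  by_contra hG
  rw [not_nontrivial_iff_subsingleton] at hG
  have h1 : Nat.card (⊤ : Subgroup G) = 1 := by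
    rw [Nat.card_eq_one_iff_unique]
    refine ⟨inferInstance, ⟨1⟩⟩
  rw [h1, padicValNat.one] at hd'
  have h2 : (0 : ℤ) ≤ (padicValNat p n : ℤ) := Int.natCast_nonneg _
  simp only [Nat.cast_zero] at hd'
  omega

theorem KST (hKRL : KRL_stmt) (hKSU : KSU_stmt) (hKWX : KWX_stmt) (hKWN : KWN_stmt)
    (hD5 : D5_stmt) (hD6 : D6_stmt) (hST : ST_stmt) (hSK : SK_stmt) (hPT : PT_stmt) :
    KST_stmt := by
  classical
  intro p l _ _ M hM hpM A _ _ hA k hk hH G E _ _ _ _ X hop χ hχ d hd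
  by_cases hpos : PosDefect p M χ
  swap
  · rw [hD5 G E A X p M hM hpM χ hχ hpos d hd ⊤]
    exact dvd_zero _
  by_cases hst : Stable X M χ
  swap
  · have h0 : altSum X p M χ d ⊤ = 0 := by
      by_contra h
      exact hst (hST G E A X p M χ hχ d h)
    rw [h0]
    exact dvd_zero _
  have hnt : Nontrivial G := KST_nontrivial p M χ hpos
  have hdiv : ∀ e : ℤ, (l : ℤ) ^ k ∣ altSum X p M χ e ⊤ := by
    intro e
    rcases le_or_gt 1 e with he | he
    · exact hH G E X hop χ hχ e he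
    · rw [hD6 G E A X p M hM hpM χ hχ hpos e (by omega) ⊤]
      exact dvd_zero _
  obtain ⟨hfin, hopT, hopK, hcard, hcomm, hV0⟩ := hKWX p l G E A X hnt hop
  obtain ⟨hW1, hW2, hW3⟩ := hKWN p l M G E A X hop χ hχ hst
  have hl2 : 2 ≤ l := (Fact.out : l.Prime).two_le
  have hl2' : (2 : ℤ) ≤ l := by exact_mod_cast hl2
  have hirr : tens (fun _ : TT l A => χ) ∈ Irr (TT l A → G) := (hPT G (TT l A) p M χ hχ).1
  have hstab : Stable (kext X (cW l A)) M (tens fun _ : TT l A => χ) :=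
    (hSK G E A (A × Tp l) (TT l A) X (cW l A) M).2.1 χ hχ hst
  have hsurj : Function.Surjective (MonoidHom.fst A (Tp l)) := Prod.fst_surjective
  have key := hKRL (TT l A → G) (KE X (cW l A)) (A × Tp l) A (kext X (cW l A))
    (MonoidHom.fst A (Tp l)) p l M hM hpM hA hsurj hcard hcomm hopT hopK ((l : ℤ) ^ k) hH
    (tens fun _ : TT l A => χ) hirr hstab ((l : ℤ) * d) (by nlinarith)
  have htop : Nat.card (((⊤ : Subgroup (A × Tp l)) ⊓ (MonoidHom.fst A (Tp l)).ker :
      Subgroup (A × Tp l))) = l := by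
    rw [top_inf_eq]
    exact hcard
  have hne : (⊤ : Subgroup (A × Tp l)) ≠ (⊤ : Subgroup A).prod ⊥ := by
    intro h
    rw [h, hV0] at htop
    omega
  have hset : {U : Subgroup (A × Tp l) | U.map (MonoidHom.fst A (Tp l)) = ⊤} =
      {⊤, (⊤ : Subgroup A).prod ⊥} := by
    ext U
    rw [Set.mem_setOf_eq, hKSU l A hA U]
    simp
  rw [hset, finsum_mem_pair hne, htop, hV0, padicValNat.one] at key
  -- the term for the top
  have hb : (l : ℤ) ^ k ∣ altSum (kext X (cW l A)) p M (tens fun _ : TT l A => χ)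
      ((l : ℤ) * d - (padicValNat p l : ℤ)) ⊤ := by
    by_cases hlp : l = p
    · subst hlp
      rw [hW2 _ ?_]
      · exact dvd_zero _
      · rw [padicValNat.self (by omega)]
        intro h
        have h1 : (l : ℤ) ∣ 1 := by
          have := dvd_sub (dvd_mul_right (l : ℤ) d) h
          simpa using this
        have h2 : (l : ℤ) ≤ 1 := Int.le_of_dvd one_pos h1
        omega
    · have h0 : padicValNat p l = 0 := by
        apply padicValNat.eq_zero_of_not_dvd
        intro h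
        exact hlp ((Nat.prime_dvd_prime_iff_eq Fact.out Fact.out).1 h).symm
      rw [h0, Nat.cast_zero, sub_zero, hW1 d]
      exact hdiv d
  have h3 := hW3 ((l : ℤ) ^ k) hdiv ((l : ℤ) * d)
  rw [hW1 d] at h3
  have h4 : (l : ℤ) ^ (k + 1) ∣ ((l : ℤ) ^ k) ^ l := by
    rw [← pow_mul]
    apply pow_dvd_pow
    nlinarith
  have h5 := h4.trans h3
  have h6 : (l : ℤ) ^ (k + 1) ∣ (l : ℤ) ^ 2 * altSum (kext X (cW l A)) p M
      (tens fun _ : TT l A => χ) ((l : ℤ) * d - (padicValNat p l : ℤ)) ⊤ := by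
    have : (l : ℤ) ^ (k + 1) ∣ (l : ℤ) ^ 2 * (l : ℤ) ^ k := by
      rw [← pow_add]
      exact pow_dvd_pow _ (by omega)
    exact this.trans (mul_dvd_mul_left _ hb)
  have h7 : (l : ℤ) * (l : ℤ) ^ k = (l : ℤ) ^ (k + 1) := by ring
  rw [h7] at key
  have h8 := (dvd_add_right h6).1 key
  simp only [Nat.cast_one, one_pow, one_mul, Nat.cast_zero, sub_zero] at h8
  exact (dvd_add_right h8).1 h5

end Pool.Agent.KZ
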